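import Pool.Agent.H90.EH.Targets

/-! Module COE of the board hst_modules (MP_e3a811_co). -/

set_option autoImplicit false

namespace Pool.Agent.H59.EH

open Pool.Agent.H90.EH
open Finset
open scoped Classical

theorem pf_COE : T_COE := by
  intro V _ _ B B' x hB hI hx
  obtain ⟨c, hc⟩ := mem_Sp.mp hx
  have hIB : Ind B := by
    intro d hd b hb
    have h1 : ∑ a ∈ B', (if a ∈ B then d a else 0) • a = 0 := by
      rw [← Finset.sum_subset hB (f := fun a => (if a ∈ B then d a else 0) • a)]
      · rw [← hd]
        refine Finset.sum_congr rfl fun a ha => ?_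
        rw [if_pos ha]
      · intro a _ ha
        rw [if_neg ha, zero_smul]
    have h2 := hI (fun a => if a ∈ B then d a else 0) h1 b (hB hb)
    simpa [hb] using h2
  have h3 : x = ∑ a ∈ B', (if a ∈ B then c a else 0) • a := by
    rw [← Finset.sum_subset hB (f := fun a => (if a ∈ B then c a else 0) • a)]
    · rw [hc]
      refine Finset.sum_congr rfl fun a ha => ?_
      rw [if_pos ha]
    · intro a _ ha
      rw [if_neg ha, zero_smul]
  have h4 : ∀ b ∈ B', co B' x b = if b ∈ B then c b else 0 :=
    fun b hb => co_unique (c := fun a => if a ∈ B then c a else 0) hI h3 hb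
  have h5 : ∀ b ∈ B, co B x b = c b := fun b hb => co_unique hIB hc hb
  refine ⟨fun b hb => ?_, fun b hb hnb => ?_⟩
  · rw [h4 b (hB hb), if_pos hb, h5 b hb]
  · rw [h4 b hb, if_neg hnb]

end Pool.Agent.H59.EH
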