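import Pool.Agent.H31.EH.Targets

/-!
# Exponent one half: row XCO, the good `p`-lines of other directions which cross a grid
-/

set_option autoImplicit false

open Finset MeasureTheory

namespace Pool.Agent.H59.EH

open Pool.Agent.H24.CL Pool.Agent.H24.LV Pool.Agent.H26.ES Pool.Agent.H31.EH

open Classical in
theorem pf_XCO (hCO : L_CO) (hSH : T_SHP) : T_XCO := by
  obtain ⟨hc1, hc2, hc3, hc4, -⟩ := hCO
  obtain ⟨hs1, -⟩ := hSH
  intro k p D G₀ G m hk hp hkp hD hco hm hCnt hG b B hB hx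
  have hp1 : 1 ≤ p := hp.pos
  choose! κ hκ1 hκ2 hκ3 using hx
  -- the line of the position `x`
  obtain ⟨R, hR⟩ : ∃ R : ℕ → X k, R = fun x => phi D (x % D) (b + κ x) := ⟨_, rfl⟩
  have hRx : ∀ x, R x = phi D (x % D) b + phi D (x % D) (κ x) := by
    intro x; rw [hR]; simp only [map_add]
  have hker : ∀ x ∈ B, phi p (x / D) (phi D (x % D) (κ x)) = 0 := by
    intro x hxB
    have h1 : phi p (x % p) (κ x) = 0 := ((hc4 k p (x % p) hp1).2 _).1 (hκ1 x hxB)
    have h2 := hc1 k D p (x / p) (x % p) (κ x)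
    rw [h1, map_zero, Nat.mod_add_div] at h2
    have h3 := hc1 k p D (x / D) (x % D) (κ x)
    rw [Nat.mod_add_div] at h3
    rw [h3, mul_comm p D, ← h2]
  have hHk : ∀ x ∈ B, p ^ k • κ x = 0 := by
    intro x hxB
    have h1 := hκ1 x hxB
    rw [Kr, Finset.mem_filter] at h1
    have h2 := h1.1
    rw [HF, Finset.mem_image] at h2
    obtain ⟨n, -, h3⟩ := h2
    rw [← h3]
    funext i
    show (p ^ k) • ((((n i : ℤ) : ℝ) / (p : ℝ) ^ k : ℝ) : UnitAddCircle) = 0
    rw [← AddCircle.coe_nsmul, nsmul_eq_mul, AddCircle.coe_eq_zero_iff]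
    refine ⟨(n i : ℤ), ?_⟩
    have hp0 : (p : ℝ) ≠ 0 := by exact_mod_cast hp.ne_zero
    push_cast
    field_simp
    simp
  have hnot : ∀ x ∈ B, phi D (x % D) (κ x) ∉ H k p 1 := by
    intro x hxB h1
    apply hκ2 x hxB
    have h2 : (p ^ 1) • phi D (x % D) (κ x) = 0 := h1
    show (p ^ 1) • κ x = 0
    rw [pow_one] at h2 ⊢
    rw [← map_nsmul] at h2
    refine hc3 k D (x % D) (p ^ k) (p • κ x) (hco.pow_right k) ?_ h2
    rw [smul_comm, hHk x hxB, smul_zero]
  have hin : ∀ x ∈ B, phi D (x % D) (κ x) ∈ H k p k := by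
    intro x hxB
    show (p ^ k) • phi D (x % D) (κ x) = 0
    rw [← map_nsmul, hHk x hxB, map_zero]
  -- the positions with a given row
  have hrow : ∀ ζ : ℕ, (((B.filter fun x => x % D = ζ).card : ℕ) : ℝ) ≤ k * m := by
    intro ζ
    obtain ⟨Bz, hBz⟩ : ∃ Bz, Bz = B.filter fun x => x % D = ζ := ⟨_, rfl⟩
    rw [← hBz]
    have hm1 : ∀ x ∈ Bz, x ∈ B ∧ x % D = ζ := by
      intro x hx; rw [hBz, Finset.mem_filter] at hx; exact hx
    obtain ⟨f, hf⟩ : ∃ f : ℕ → X k ⧸ H k p 1, f = fun x => (QuotientAddGroup.mk (R x)) :=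
      ⟨_, rfl⟩
    have hfeq : ∀ x x', f x = f x' ↔ R x - R x' ∈ H k p 1 := by
      intro x x'
      rw [hf]
      simp only
      rw [eq_comm, QuotientAddGroup.eq, neg_add_eq_sub]
    have hg : ∀ c ∈ Bz.image f, ∃ x ∈ Bz, f x = c := by
      intro c hc
      rw [Finset.mem_image] at hc
      exact hc
    choose! g hg1 hg2 using hg
    have hcard1 : ((Bz.image f).card : ℝ) ≤ m := by
      have hinj : Set.InjOn (fun c => R (g c)) (Bz.image f : Set (X k ⧸ H k p 1)) := by
        intro c hc c' hc' h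
        rw [← hg2 c hc, ← hg2 c' hc', hfeq]
        simp only at h
        rw [h, sub_self]
        exact zero_mem _
      have h1 := hCnt ((Bz.image f).image fun c => R (g c)) ?_ ?_ ?_
      · rwa [Finset.card_image_of_injOn hinj] at h1
      · intro y hy
        rw [Finset.mem_image] at hy
        obtain ⟨c, hc, rfl⟩ := hy
        have h2 := hκ3 (g c) (hm1 _ (hg1 c hc)).1
        rw [hR]
        exact hG _ h2
      · intro y hy y' hy'
        rw [Finset.mem_image] at hy hy'
        obtain ⟨c, hc, rfl⟩ := hy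
        obtain ⟨c', hc', rfl⟩ := hy'
        have h2 := hm1 _ (hg1 c hc)
        have h3 := hm1 _ (hg1 c' hc')
        have h4 := hin _ h2.1
        have h5 := hin _ h3.1
        rw [hRx, hRx, h2.2, h3.2, add_sub_add_left_eq_sub]
        rw [h2.2] at h4
        rw [h3.2] at h5
        exact sub_mem h4 h5
      · intro y hy y' hy' h
        rw [Finset.mem_image] at hy hy'
        obtain ⟨c, hc, rfl⟩ := hy
        obtain ⟨c', hc', rfl⟩ := hy'
        have h2 := (hfeq _ _).2 h
        rw [hg2 c hc, hg2 c' hc'] at h2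
        rw [h2]
    have hcard2 : Bz.card ≤ (k - 1) * (Bz.image f).card := by
      apply Finset.card_le_mul_card_image
      intro c hc
      have hgc := hm1 _ (hg1 c hc)
      have hinj : Set.InjOn (fun x => x / D) ((Bz.filter fun x => f x = c) : Set ℕ) := by
        intro x hx x' hx' h
        have hx1 := (hm1 x (Finset.mem_filter.1 hx).1).2
        have hx2 := (hm1 x' (Finset.mem_filter.1 hx').1).2
        simp only at h
        rw [← Nat.mod_add_div x D, ← Nat.mod_add_div x' D, hx1, hx2, h]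
      rw [← Finset.card_image_of_injOn hinj]
      refine hs1 k p hp hkp (R (g c)) (phi D ζ b) ?_ _ ?_ ?_
      · rw [hRx, hgc.2, add_sub_cancel_left]
        have := hnot _ hgc.1
        rwa [hgc.2] at this
      · intro t ht
        rw [Finset.mem_image] at ht
        obtain ⟨x, hx, rfl⟩ := ht
        have h1 := hB (hm1 x (Finset.mem_filter.1 hx).1).1
        rw [Finset.mem_range] at h1 ⊢
        exact Nat.div_lt_of_lt_mul (by rwa [mul_comm])
      · intro t ht
        rw [Finset.mem_image] at ht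
        obtain ⟨x, hx, rfl⟩ := ht
        have h1 := Finset.mem_filter.1 hx
        have h2 := hm1 x h1.1
        have h3 : R (g c) - R x ∈ H k p 1 := by
          rw [← hfeq, hg2 c hc, h1.2]
        have h4 := hc2 k p (x / D) _ h3
        rw [map_sub, sub_eq_zero] at h4
        rw [h4, hRx, map_add, hker x h2.1, add_zero, h2.2]
    have h1 : ((Bz.card : ℕ) : ℝ) ≤ ((k - 1 : ℕ) : ℝ) * ((Bz.image f).card : ℝ) := by
      exact_mod_cast hcard2
    have h2 : ((k - 1 : ℕ) : ℝ) ≤ k := by exact_mod_cast Nat.sub_le k 1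
    calc ((Bz.card : ℕ) : ℝ) ≤ ((k - 1 : ℕ) : ℝ) * ((Bz.image f).card : ℝ) := h1
      _ ≤ k * m := mul_le_mul h2 hcard1 (by positivity) (by positivity)
  have hsum : B.card = ∑ ζ ∈ range D, (B.filter fun x => x % D = ζ).card := by
    apply Finset.card_eq_sum_card_fiberwise
    intro x _
    simp only [Finset.coe_range, Set.mem_Iio]
    exact Nat.mod_lt _ hD
  rw [hsum]
  push_cast
  calc ∑ ζ ∈ range D, (((B.filter fun x => x % D = ζ).card : ℕ) : ℝ)
      ≤ ∑ _ζ ∈ range D, (k : ℝ) * m := Finset.sum_le_sum fun ζ _ => hrow ζ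
    _ = k * m * D := by rw [Finset.sum_const, Finset.card_range, nsmul_eq_mul, mul_comm]

end Pool.Agent.H59.EH
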